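import Mathlib

/-! Slack bound (hole step) for `f(0 0; 0 1) ≤ 2/e²`. -/

set_option autoImplicit false

namespace Pool.Agent.Lib.MP_efec9b_co.SLK

open Real

noncomputable section

/-- `t = 1/e`. -/
def tt : ℝ := Real.exp (-1)

lemma tt_pos : 0 < tt := Real.exp_pos _

lemma log_tt : Real.log tt = -1 := Real.log_exp _

/-- `P z = ∫_0^z U`, `U = min (1, t/z)`. -/
def PP (z : ℝ) : ℝ := if z ≤ tt then z else 2 * tt + tt * Real.log z

/-- `V z = ∫_0^z U(y) y dy`. -/
def VV (z : ℝ) : ℝ := if z ≤ tt then z ^ 2 / 2 else tt * z - tt ^ 2 / 2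

/-- `K z = ∫_0^z (t - y)_+ dy`. -/
def KK (z : ℝ) : ℝ := if z ≤ tt then tt * z - z ^ 2 / 2 else tt ^ 2 / 2

/-- `∫_m^a f(m', n) dm'`. -/
def II (a m n : ℝ) : ℝ :=
  (2 * tt - PP (a + n)) * (a - m) + (a + 2 * n) * (PP (a + n) - PP (m + n)) -
    2 * (VV (a + n) - VV (m + n))

/-- potential. -/
def BB (a m n : ℝ) : ℝ := II a m n + (max 0 (tt - a - n)) ^ 2

lemma PP_le {z : ℝ} (h : z ≤ tt) : PP z = z := if_pos h
lemma VV_le {z : ℝ} (h : z ≤ tt) : VV z = z ^ 2 / 2 := if_pos h
lemma KK_le {z : ℝ} (h : z ≤ tt) : KK z = tt * z - z ^ 2 / 2 := if_pos h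

lemma PP_ge {z : ℝ} (h : tt ≤ z) : PP z = 2 * tt + tt * Real.log z := by
  rcases h.eq_or_lt with h | h
  · subst h
    rw [PP_le le_rfl, log_tt]; ring
  · exact if_neg (not_le.2 h)

lemma VV_ge {z : ℝ} (h : tt ≤ z) : VV z = tt * z - tt ^ 2 / 2 := by
  rcases h.eq_or_lt with h | h
  · subst h
    rw [VV_le le_rfl]; ring
  · exact if_neg (not_le.2 h)

lemma KK_ge {z : ℝ} (h : tt ≤ z) : KK z = tt ^ 2 / 2 := by
  rcases h.eq_or_lt with h | h
  · subst h
    rw [KK_le le_rfl]; ring
  · exact if_neg (not_le.2 h)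

/-- `2 log R ≤ R - 1/R` for `R ≥ 1`. -/
lemma two_log_le {R : ℝ} (hR : 1 ≤ R) : 2 * Real.log R ≤ R - 1 / R := by
  have h : AntitoneOn (fun x : ℝ => 2 * Real.log x - (x - 1 / x)) (Set.Ici 1) := by
    apply antitoneOn_of_deriv_nonpos (convex_Ici 1)
    · apply ContinuousOn.sub
      · exact (continuousOn_const.mul (Real.continuousOn_log.mono (fun x hx => by
          have : (1 : ℝ) ≤ x := hx
          exact ne_of_gt (by linarith : (0 : ℝ) < x))))
      · exact continuousOn_id.sub (continuousOn_const.div continuousOn_id (fun x hx => by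
          have : (1 : ℝ) ≤ x := hx
          exact ne_of_gt (by linarith : (0 : ℝ) < x)))
    · intro x hx
      rw [interior_Ici] at hx
      have hx0 : (x : ℝ) ≠ 0 := by have : (1 : ℝ) < x := hx; linarith
      exact ((((Real.hasDerivAt_log hx0).const_mul 2).sub
        ((hasDerivAt_id x).sub ((hasDerivAt_const x (1 : ℝ)).div (hasDerivAt_id x) hx0)))
          ).differentiableAt.differentiableWithinAt
    · intro x hx
      rw [interior_Ici] at hx
      have hx1 : (1 : ℝ) < x := hx
      have hx0 : (x : ℝ) ≠ 0 := by linarith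
      have hd := (((Real.hasDerivAt_log hx0).const_mul 2).sub
        ((hasDerivAt_id x).sub ((hasDerivAt_const x (1 : ℝ)).div (hasDerivAt_id x) hx0)))
      have h2 := hd.deriv
      simp only [id] at h2
      have h3 : deriv (fun x : ℝ => 2 * Real.log x - (x - 1 / x)) x =
          2 * x⁻¹ - (1 - (0 * x - 1 * 1) / x ^ 2) := h2
      rw [h3]
      have h4 : 2 * x⁻¹ - (1 - (0 * x - 1 * 1) / x ^ 2) = -((x - 1) ^ 2 / x ^ 2) := by
        field_simp; ring
      rw [h4]
      have : 0 ≤ (x - 1) ^ 2 / x ^ 2 := by positivity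
      linarith
  have h1 := h (Set.mem_Ici.2 le_rfl) (Set.mem_Ici.2 hR) hR
  simp only [Real.log_one] at h1
  linarith [h1]

/-- `FF = B + k K`, the function which decreases along holes. -/
def FF (k a m s : ℝ) : ℝ := BB a m s + k * KK (m + s)

/-- region (i): `a + s ≤ t`. -/
lemma step_one {k a m s s' : ℝ} (_hk0 : 0 ≤ k) (hk1 : k ≤ 1) (hm : m ≤ a) (hs : s ≤ s')
    (hu : a + s' ≤ tt) : FF k a m s' ≤ FF k a m s := by
  have e1 : a + s ≤ tt := by linarith
  have e2 : m + s ≤ tt := by linarith
  have e3 : m + s' ≤ tt := by linarith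
  unfold FF BB II
  rw [PP_le hu, PP_le e1, PP_le e2, PP_le e3, VV_le hu, VV_le e1, VV_le e2, VV_le e3,
    KK_le e2, KK_le e3, max_eq_right (by linarith : (0 : ℝ) ≤ tt - a - s'),
    max_eq_right (by linarith : (0 : ℝ) ≤ tt - a - s)]
  obtain ⟨w, rfl⟩ : ∃ w, s' = s + w := ⟨s' - s, by ring⟩
  obtain ⟨e, he⟩ : ∃ e, e = tt - a - s := ⟨_, rfl⟩
  obtain ⟨r, hr⟩ : ∃ r, r = a - m := ⟨_, rfl⟩
  have hw : 0 ≤ w := by linarith
  have hew : w ≤ e := by linarith
  have hr0 : 0 ≤ r := by linarith
  have ht : tt = e + a + s := by linarith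
  have hma : m = a - r := by linarith
  rw [ht, hma]
  have key : w * (-r - 2 * e + w + k * (e + r - w / 2)) ≤ 0 := by
    apply mul_nonpos_of_nonneg_of_nonpos hw
    nlinarith [mul_nonneg (by linarith : (0 : ℝ) ≤ 1 - k) hr0,
      mul_nonneg (by linarith : (0 : ℝ) ≤ 2 - k) (by linarith : (0 : ℝ) ≤ e - w)]
  nlinarith [key]

/-- region (ii): `m + s ≤ t ≤ a + s`. -/
lemma step_two {k a m s s' : ℝ} (hk1 : k ≤ 2 - 2 * Real.log 2) (hm0 : 0 ≤ m)
    (hs0 : 0 ≤ s) (hs : s ≤ s') (hu : tt ≤ a + s) (hx : m + s' ≤ tt) :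
    FF k a m s' ≤ FF k a m s := by
  have htp := tt_pos
  have hF : ∀ z ∈ Set.Icc s s', FF k a m z =
      (2 * tt - (2 * tt + tt * Real.log (a + z))) * (a - m) +
        (a + 2 * z) * ((2 * tt + tt * Real.log (a + z)) - (m + z)) -
        2 * ((tt * (a + z) - tt ^ 2 / 2) - (m + z) ^ 2 / 2) +
        k * (tt * (m + z) - (m + z) ^ 2 / 2) := by
    intro z hz
    have h1 : tt ≤ a + z := by linarith [hz.1]
    have h2 : m + z ≤ tt := by linarith [hz.2]
    unfold FF BB II
    rw [PP_ge h1, PP_le h2, VV_ge h1, VV_le h2, KK_le h2,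
      max_eq_left (by linarith : tt - a - z ≤ 0)]
    ring
  have hd : ∀ z ∈ Set.Icc s s', HasDerivAt (fun z : ℝ =>
      (2 * tt - (2 * tt + tt * Real.log (a + z))) * (a - m) +
        (a + 2 * z) * ((2 * tt + tt * Real.log (a + z)) - (m + z)) -
        2 * ((tt * (a + z) - tt ^ 2 / 2) - (m + z) ^ 2 / 2) +
        k * (tt * (m + z) - (m + z) ^ 2 / 2))
      ((0 - (0 + tt * (1 / (a + z)))) * (a - m) +
        ((0 + 2 * 1) * ((2 * tt + tt * Real.log (a + z)) - (m + z)) +
          (a + 2 * z) * ((0 + tt * (1 / (a + z))) - 1)) -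
        2 * ((tt * 1 - 0) - (2 * (m + z) ^ 1 * 1) / 2) +
        k * (tt * 1 - (2 * (m + z) ^ 1 * 1) / 2)) z := by
    intro z hz
    have h1 : tt ≤ a + z := by linarith [hz.1]
    have hpos : a + z ≠ 0 := by
      have := tt_pos
      exact ne_of_gt (by linarith)
    have da : HasDerivAt (fun z : ℝ => a + z) 1 z := (hasDerivAt_id z).const_add a
    have dm : HasDerivAt (fun z : ℝ => m + z) 1 z := (hasDerivAt_id z).const_add m
    have dl : HasDerivAt (fun z : ℝ => Real.log (a + z)) (1 / (a + z)) z := da.log hpos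
    have dP : HasDerivAt (fun z : ℝ => 2 * tt + tt * Real.log (a + z))
        (0 + tt * (1 / (a + z))) z := (hasDerivAt_const z (2 * tt)).add (dl.const_mul tt)
    have dA2 : HasDerivAt (fun z : ℝ => a + 2 * z) (0 + 2 * 1) z :=
      (hasDerivAt_const z a).add ((hasDerivAt_id z).const_mul 2)
    have dsq : HasDerivAt (fun z : ℝ => (m + z) ^ 2 / 2) ((2 * (m + z) ^ 1 * 1) / 2) z := by
      have := (dm.pow 2).div_const 2
      simpa using this
    exact ((((hasDerivAt_const z (2 * tt)).sub dP).mul_const (a - m)).add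
      (dA2.mul (dP.sub dm))).sub ((((da.const_mul tt).sub (hasDerivAt_const z (tt ^ 2 / 2))).sub
        dsq).const_mul 2) |>.add (((dm.const_mul tt).sub dsq).const_mul k)
  have hanti : AntitoneOn (fun z : ℝ =>
      (2 * tt - (2 * tt + tt * Real.log (a + z))) * (a - m) +
        (a + 2 * z) * ((2 * tt + tt * Real.log (a + z)) - (m + z)) -
        2 * ((tt * (a + z) - tt ^ 2 / 2) - (m + z) ^ 2 / 2) +
        k * (tt * (m + z) - (m + z) ^ 2 / 2)) (Set.Icc s s') := by
    apply antitoneOn_of_deriv_nonpos (convex_Icc s s')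
    · exact fun z hz => (hd z hz).continuousAt.continuousWithinAt
    · exact fun z hz => (hd z (interior_subset hz)).differentiableAt.differentiableWithinAt
    · intro z hz
      have hz' := interior_subset hz
      rw [(hd z hz').deriv]
      have h1 : tt ≤ a + z := by linarith [hz'.1]
      have h2 : m + z ≤ tt := by linarith [hz'.2]
      have hz0 : 0 ≤ z := by linarith [hz'.1]
      obtain ⟨u, hu'⟩ : ∃ u, u = a + z := ⟨_, rfl⟩
      obtain ⟨x, hx'⟩ : ∃ x, x = m + z := ⟨_, rfl⟩
      have hupos : 0 < u := by linarith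
      have hx0 : 0 ≤ x := by linarith
      rw [← hu', ← hx']
      have ha : a = u - z := by linarith
      have hmm : m = x - z := by linarith
      have e1 : a - m = u - x := by linarith
      rw [e1]
      have hlog : Real.log u = Real.log (u / tt) - 1 := by
        rw [Real.log_div hupos.ne' htp.ne', log_tt]; ring
      obtain ⟨L, hL⟩ : ∃ L, L = Real.log (u / tt) := ⟨_, rfl⟩
      obtain ⟨v, hv⟩ : ∃ v, v = 1 / u := ⟨_, rfl⟩
      have huv : u * v = 1 := by rw [hv]; field_simp
      have hvpos : 0 < v := by rw [hv]; positivity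
      have hR : 1 ≤ u / tt := by rw [le_div_iff₀ htp]; linarith
      have k1 := two_log_le hR
      have k1' : 2 * tt * L ≤ u - tt ^ 2 * v := by
        have h3 : tt * (2 * L) ≤ tt * (u / tt - 1 / (u / tt)) :=
          mul_le_mul_of_nonneg_left (by rw [hL]; exact k1) htp.le
        have h4 : tt * (u / tt - 1 / (u / tt)) = u - tt ^ 2 * v := by
          rw [hv]; field_simp
        linarith
      have k2 : 2 * tt * L ≤ u - k * tt := by
        have h5 : Real.log (u / tt / 2) ≤ u / tt / 2 - 1 :=
          Real.log_le_sub_one_of_pos (by positivity)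
        rw [Real.log_div (by positivity) (by norm_num), ← hL] at h5
        have h7 : L ≤ u / tt / 2 - k / 2 := by linarith
        have h8 : 2 * tt * L ≤ 2 * tt * (u / tt / 2 - k / 2) :=
          mul_le_mul_of_nonneg_left h7 (by positivity)
        have h9 : 2 * tt * (u / tt / 2 - k / 2) = u - k * tt := by
          field_simp
        linarith
      rw [hlog, ← hL, ← hv]
      -- combine: linear in `x`
      have k3 : tt * (2 * tt * L + tt * x * v - u + k * (tt - x)) ≤ 0 := by
        have h10 : tt * (2 * tt * L + tt * x * v - u + k * (tt - x)) =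
            x * (2 * tt * L - (u - tt ^ 2 * v)) + (tt - x) * (2 * tt * L - (u - k * tt)) := by
          ring
        rw [h10]
        have := mul_nonpos_of_nonneg_of_nonpos hx0 (by linarith : 2 * tt * L - (u - tt ^ 2 * v) ≤ 0)
        have := mul_nonpos_of_nonneg_of_nonpos (by linarith : 0 ≤ tt - x)
          (by linarith : 2 * tt * L - (u - k * tt) ≤ 0)
        linarith
      have k4 : 2 * tt * L + tt * x * v - u + k * (tt - x) ≤ 0 := by
        by_contra h11
        push Not at h11
        have := mul_pos htp h11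
        linarith
      have htv : tt * v ≤ 1 := by
        have : tt * v ≤ u * v := mul_le_mul_of_nonneg_right (by linarith) hvpos.le
        linarith
      have k5 : 0 ≤ z * (1 - tt * v) := mul_nonneg hz0 (by linarith)
      have haa : a + 2 * z = u + z := by linarith
      rw [haa]
      have h12 : (0 - (0 + tt * v)) * (u - x) +
          ((0 + 2 * 1) * ((2 * tt + tt * (L - 1)) - x) + (u + z) * ((0 + tt * v) - 1)) -
          2 * ((tt * 1 - 0) - (2 * x ^ 1 * 1) / 2) + k * (tt * 1 - (2 * x ^ 1 * 1) / 2) =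
          (2 * tt * L + tt * x * v - u + k * (tt - x)) - z * (1 - tt * v) +
            (tt * (1 - u * v) + tt * (u * v - 1)) := by
        ring
      rw [h12]
      linarith
  have h := hanti (Set.left_mem_Icc.2 hs) (Set.right_mem_Icc.2 hs) hs
  rw [hF s (Set.left_mem_Icc.2 hs), hF s' (Set.right_mem_Icc.2 hs)]
  exact h

/-- region (iii): `t ≤ m + s`. -/
lemma step_three {k a m s s' : ℝ} (hm : m ≤ a)
    (hs0 : 0 ≤ s) (hs : s ≤ s') (hx : tt ≤ m + s) :
    FF k a m s' ≤ FF k a m s := by
  have htp := tt_pos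
  have hF : ∀ z ∈ Set.Icc s s', FF k a m z =
      (2 * tt - (2 * tt + tt * Real.log (a + z))) * (a - m) +
        (a + 2 * z) * ((2 * tt + tt * Real.log (a + z)) - (2 * tt + tt * Real.log (m + z))) -
        2 * ((tt * (a + z) - tt ^ 2 / 2) - (tt * (m + z) - tt ^ 2 / 2)) +
        k * (tt ^ 2 / 2) := by
    intro z hz
    have h1 : tt ≤ a + z := by linarith [hz.1]
    have h2 : tt ≤ m + z := by linarith [hz.1]
    unfold FF BB II
    rw [PP_ge h1, PP_ge h2, VV_ge h1, VV_ge h2, KK_ge h2,
      max_eq_left (by linarith : tt - a - z ≤ 0)]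
    ring
  have hd : ∀ z ∈ Set.Icc s s', HasDerivAt (fun z : ℝ =>
      (2 * tt - (2 * tt + tt * Real.log (a + z))) * (a - m) +
        (a + 2 * z) * ((2 * tt + tt * Real.log (a + z)) - (2 * tt + tt * Real.log (m + z))) -
        2 * ((tt * (a + z) - tt ^ 2 / 2) - (tt * (m + z) - tt ^ 2 / 2)) +
        k * (tt ^ 2 / 2))
      ((0 - (0 + tt * (1 / (a + z)))) * (a - m) +
        ((0 + 2 * 1) * ((2 * tt + tt * Real.log (a + z)) - (2 * tt + tt * Real.log (m + z))) +
          (a + 2 * z) * ((0 + tt * (1 / (a + z))) - (0 + tt * (1 / (m + z))))) -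
        2 * ((tt * 1 - 0) - (tt * 1 - 0)) + 0) z := by
    intro z hz
    have h1 : tt ≤ a + z := by linarith [hz.1]
    have h2 : tt ≤ m + z := by linarith [hz.1]
    have hpos : a + z ≠ 0 := ne_of_gt (by linarith)
    have hpos2 : m + z ≠ 0 := ne_of_gt (by linarith)
    have da : HasDerivAt (fun z : ℝ => a + z) 1 z := (hasDerivAt_id z).const_add a
    have dm : HasDerivAt (fun z : ℝ => m + z) 1 z := (hasDerivAt_id z).const_add m
    have dl : HasDerivAt (fun z : ℝ => Real.log (a + z)) (1 / (a + z)) z := da.log hpos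
    have dl2 : HasDerivAt (fun z : ℝ => Real.log (m + z)) (1 / (m + z)) z := dm.log hpos2
    have dP : HasDerivAt (fun z : ℝ => 2 * tt + tt * Real.log (a + z))
        (0 + tt * (1 / (a + z))) z := (hasDerivAt_const z (2 * tt)).add (dl.const_mul tt)
    have dP2 : HasDerivAt (fun z : ℝ => 2 * tt + tt * Real.log (m + z))
        (0 + tt * (1 / (m + z))) z := (hasDerivAt_const z (2 * tt)).add (dl2.const_mul tt)
    have dA2 : HasDerivAt (fun z : ℝ => a + 2 * z) (0 + 2 * 1) z :=
      (hasDerivAt_const z a).add ((hasDerivAt_id z).const_mul 2)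
    exact ((((hasDerivAt_const z (2 * tt)).sub dP).mul_const (a - m)).add
      (dA2.mul (dP.sub dP2))).sub ((((da.const_mul tt).sub (hasDerivAt_const z (tt ^ 2 / 2))).sub
        ((dm.const_mul tt).sub (hasDerivAt_const z (tt ^ 2 / 2)))).const_mul 2) |>.add
        (hasDerivAt_const z (k * (tt ^ 2 / 2)))
  have hanti : AntitoneOn (fun z : ℝ =>
      (2 * tt - (2 * tt + tt * Real.log (a + z))) * (a - m) +
        (a + 2 * z) * ((2 * tt + tt * Real.log (a + z)) - (2 * tt + tt * Real.log (m + z))) -
        2 * ((tt * (a + z) - tt ^ 2 / 2) - (tt * (m + z) - tt ^ 2 / 2)) +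
        k * (tt ^ 2 / 2)) (Set.Icc s s') := by
    apply antitoneOn_of_deriv_nonpos (convex_Icc s s')
    · exact fun z hz => (hd z hz).continuousAt.continuousWithinAt
    · exact fun z hz => (hd z (interior_subset hz)).differentiableAt.differentiableWithinAt
    · intro z hz
      have hz' := interior_subset hz
      rw [(hd z hz').deriv]
      have h1 : tt ≤ a + z := by linarith [hz'.1]
      have h2 : tt ≤ m + z := by linarith [hz'.1]
      have hz0 : 0 ≤ z := by linarith [hz'.1]
      obtain ⟨u, hu'⟩ : ∃ u, u = a + z := ⟨_, rfl⟩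
      obtain ⟨x, hx'⟩ : ∃ x, x = m + z := ⟨_, rfl⟩
      have hupos : 0 < u := by linarith
      have hx0 : 0 < x := by linarith
      have hxu : x ≤ u := by linarith
      rw [← hu', ← hx']
      have e1 : a - m = u - x := by linarith
      have haa : a + 2 * z = u + z := by linarith
      rw [e1, haa]
      obtain ⟨L, hL⟩ : ∃ L, L = Real.log (u / x) := ⟨_, rfl⟩
      have hlog : Real.log u = L + Real.log x := by
        rw [hL, Real.log_div hupos.ne' hx0.ne']; ring
      have hR : 1 ≤ u / x := by rw [le_div_iff₀ hx0]; linarith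
      have k1 := two_log_le hR
      rw [← hL] at k1
      have h3 : u / x - 1 / (u / x) = u * (1 / x) - x * (1 / u) := by
        field_simp
      rw [h3] at k1
      rw [hlog]
      obtain ⟨v, hv⟩ : ∃ v, v = 1 / u := ⟨_, rfl⟩
      obtain ⟨y, hy⟩ : ∃ y, y = 1 / x := ⟨_, rfl⟩
      have huv : u * v = 1 := by rw [hv]; field_simp
      have hxy : x * y = 1 := by rw [hy]; field_simp
      have hvy : v ≤ y := by
        rw [hv, hy]; exact one_div_le_one_div_of_le hx0 hxu
      rw [← hv, ← hy] at k1
      rw [← hv, ← hy]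
      have h4 : (0 - (0 + tt * v)) * (u - x) +
          ((0 + 2 * 1) * ((2 * tt + tt * (L + Real.log x)) - (2 * tt + tt * Real.log x)) +
            (u + z) * ((0 + tt * v) - (0 + tt * y))) - 2 * ((tt * 1 - 0) - (tt * 1 - 0)) + 0 =
          tt * (2 * L - (u * y - x * v)) - tt * (z * (y - v)) := by
        ring
      rw [h4]
      have h5 : tt * (2 * L - (u * y - x * v)) ≤ 0 :=
        mul_nonpos_of_nonneg_of_nonpos htp.le (by linarith)
      have h6 : 0 ≤ tt * (z * (y - v)) :=
        mul_nonneg htp.le (mul_nonneg hz0 (by linarith))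
      linarith
  have h := hanti (Set.left_mem_Icc.2 hs) (Set.right_mem_Icc.2 hs) hs
  rw [hF s (Set.left_mem_Icc.2 hs), hF s' (Set.right_mem_Icc.2 hs)]
  exact h

/-- The function `B + k K` decreases along holes. -/
theorem hole_step {k a m s s' : ℝ} (hk0 : 0 ≤ k) (hk1' : k ≤ 2 - 2 * Real.log 2) (hm0 : 0 ≤ m) (hm : m ≤ a)
    (hs0 : 0 ≤ s) (hs : s ≤ s') : FF k a m s' ≤ FF k a m s := by
  have hk1 : k ≤ 1 := by
    have := Real.log_two_gt_d9
    linarith
  rcases le_total (a + s') tt with h1 | h1
  · exact step_one hk0 (by linarith) hm hs h1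
  rcases le_total tt (m + s) with h2 | h2
  · exact step_three hm hs0 hs h2
  -- first piece
  have A : ∀ p, s ≤ p → p ≤ s' → tt ≤ a + p → m + p ≤ tt → FF k a m s' ≤ FF k a m p := by
    intro p hp1 hp2 hp3 hp4
    rcases le_total (m + s') tt with h3 | h3
    · exact step_two hk1' hm0 (by linarith) hp2 hp3 h3
    · have e1 : FF k a m s' ≤ FF k a m (tt - m) :=
        step_three hm (by linarith) (by linarith) (by linarith)
      have e2 : FF k a m (tt - m) ≤ FF k a m p :=
        step_two hk1' hm0 (by linarith) (by linarith) hp3 (by linarith)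
      exact e1.trans e2
  rcases le_total tt (a + s) with h4 | h4
  · exact A s le_rfl hs h4 h2
  · have e1 : FF k a m (tt - a) ≤ FF k a m s :=
      step_one hk0 (by linarith) hm (by linarith) (by linarith)
    exact (A (tt - a) (by linarith) (by linarith) (by linarith) (by linarith)).trans e1

/-! ### integrals -/

/-- `U x = t / max x t`. -/
def UU (x : ℝ) : ℝ := tt / max x tt

lemma UU_le {x : ℝ} (h : x ≤ tt) : UU x = 1 := by
  unfold UU; rw [max_eq_right h]; exact div_self tt_pos.ne'

lemma UU_ge {x : ℝ} (h : tt ≤ x) : UU x = tt / x := by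
  unfold UU; rw [max_eq_left h]

lemma UU_cont : Continuous UU := by
  unfold UU
  exact continuous_const.div (continuous_id.max continuous_const)
    (fun x => ne_of_gt (lt_of_lt_of_le tt_pos (le_max_right _ _)))

lemma PP_eq (z : ℝ) : PP z = min z tt + tt * Real.log (max z tt) + tt := by
  rcases le_total z tt with h | h
  · rw [PP_le h, min_eq_left h, max_eq_right h, log_tt]; ring
  · rw [PP_ge h, min_eq_right h, max_eq_left h]; ring

lemma VV_eq (z : ℝ) : VV z = (min z tt) ^ 2 / 2 + tt * (max z tt - tt) := by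
  rcases le_total z tt with h | h
  · rw [VV_le h, min_eq_left h, max_eq_right h]; ring
  · rw [VV_ge h, min_eq_right h, max_eq_left h]; ring

lemma KK_eq (z : ℝ) : KK z = tt * (min z tt) - (min z tt) ^ 2 / 2 := by
  rcases le_total z tt with h | h
  · rw [KK_le h, min_eq_left h]
  · rw [KK_ge h, min_eq_right h]; ring

lemma PP_cont : Continuous PP := by
  have : PP = fun z => min z tt + tt * Real.log (max z tt) + tt := funext PP_eq
  rw [this]
  exact ((continuous_id.min continuous_const).add (continuous_const.mul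
    ((continuous_id.max continuous_const).log
      (fun x => ne_of_gt (lt_of_lt_of_le tt_pos (le_max_right _ _)))))).add continuous_const

lemma VV_cont : Continuous VV := by
  have : VV = fun z => (min z tt) ^ 2 / 2 + tt * (max z tt - tt) := funext VV_eq
  rw [this]
  fun_prop

lemma KK_cont : Continuous KK := by
  have : KK = fun z => tt * (min z tt) - (min z tt) ^ 2 / 2 := funext KK_eq
  rw [this]
  fun_prop

lemma int_of_piece {F f : ℝ → ℝ} (hF : Continuous F) (hf : Continuous f)
    (h1 : ∀ z, z < tt → HasDerivAt F (f z) z) (h2 : ∀ z, tt < z → HasDerivAt F (f z) z)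
    (a b : ℝ) : ∫ y in a..b, f y = F b - F a := by
  apply MeasureTheory.integral_eq_of_hasDerivAt_off_countable F f (Set.countable_singleton tt)
    hF.continuousOn
  · intro x hx
    have : x ≠ tt := hx.2
    rcases lt_or_gt_of_ne this with h | h
    · exact h1 x h
    · exact h2 x h
  · exact hf.intervalIntegrable a b

lemma int_U (a b : ℝ) : ∫ y in a..b, UU y = PP b - PP a := by
  refine int_of_piece PP_cont UU_cont ?_ ?_ a b
  · intro z hz
    rw [UU_le hz.le]
    refine (hasDerivAt_id z).congr_of_eventuallyEq ?_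
    filter_upwards [gt_mem_nhds hz] with y hy
    exact PP_le hy.le
  · intro z hz
    rw [UU_ge hz.le]
    have hz0 : z ≠ 0 := ne_of_gt (tt_pos.trans hz)
    have h : HasDerivAt (fun z : ℝ => 2 * tt + tt * Real.log z) (tt / z) z := by
      have := ((Real.hasDerivAt_log hz0).const_mul tt).const_add (2 * tt)
      simpa [div_eq_mul_inv] using this
    refine h.congr_of_eventuallyEq ?_
    filter_upwards [lt_mem_nhds hz] with y hy
    exact PP_ge hy.le

lemma int_Uy (a b : ℝ) : ∫ y in a..b, UU y * y = VV b - VV a := by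
  refine int_of_piece VV_cont (UU_cont.mul continuous_id) ?_ ?_ a b
  · intro z hz
    have e : UU z * z = z := by rw [UU_le hz.le]; ring
    have e' : (fun x => UU x * id x) z = z := e
    have h : HasDerivAt (fun z : ℝ => z ^ 2 / 2) z z := by
      have := (hasDerivAt_pow 2 z).div_const 2
      simpa using this
    have h2 : HasDerivAt VV z z := by
      refine h.congr_of_eventuallyEq ?_
      filter_upwards [gt_mem_nhds hz] with y hy
      exact VV_le hy.le
    show HasDerivAt VV (UU z * z) z
    rw [e]; exact h2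
  · intro z hz
    have hz0 : z ≠ 0 := ne_of_gt (tt_pos.trans hz)
    have e : UU z * z = tt := by rw [UU_ge hz.le]; field_simp
    have h : HasDerivAt (fun z : ℝ => tt * z - tt ^ 2 / 2) tt z := by
      have := ((hasDerivAt_id z).const_mul tt).sub_const (tt ^ 2 / 2)
      simpa using this
    show HasDerivAt VV (UU z * z) z
    rw [e]
    refine h.congr_of_eventuallyEq ?_
    filter_upwards [lt_mem_nhds hz] with y hy
    exact VV_ge hy.le

lemma int_K (a b : ℝ) : ∫ y in a..b, max 0 (tt - y) = KK b - KK a := by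
  refine int_of_piece KK_cont
    (continuous_const.max (continuous_const.sub continuous_id)) ?_ ?_ a b
  · intro z hz
    have e : max 0 (tt - z) = tt - z := max_eq_right (by linarith)
    have h : HasDerivAt (fun z : ℝ => tt * z - z ^ 2 / 2) (tt - z) z := by
      have h1 : HasDerivAt (fun z : ℝ => tt * z - z ^ 2 / 2)
          (tt * 1 - ((2 : ℕ) : ℝ) * z ^ (2 - 1) / 2) z :=
        ((hasDerivAt_id z).const_mul tt).sub ((hasDerivAt_pow 2 z).div_const 2)
      have e1 : tt * 1 - ((2 : ℕ) : ℝ) * z ^ (2 - 1) / 2 = tt - z := by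
        norm_num
      rw [e1] at h1
      exact h1
    show HasDerivAt KK (max 0 (tt - z)) z
    rw [e]
    refine h.congr_of_eventuallyEq ?_
    filter_upwards [gt_mem_nhds hz] with y hy
    exact KK_le hy.le
  · intro z hz
    have e : max 0 (tt - z) = 0 := max_eq_left (by linarith)
    show HasDerivAt KK (max 0 (tt - z)) z
    rw [e]
    refine (hasDerivAt_const z (tt ^ 2 / 2)).congr_of_eventuallyEq ?_
    filter_upwards [lt_mem_nhds hz] with y hy
    exact KK_ge hy.le

/-- the contribution of an element cell. -/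
lemma cell_int (a m n w : ℝ) :
    (∫ y in (m + n)..(m + n + w), (a - 2 * m - 2 * (y - (m + n))) * UU y) +
      w * (2 * tt - PP (a + n)) = II a m n - II a (m + w) n := by
  have h1 : (∫ y in (m + n)..(m + n + w), (a - 2 * m - 2 * (y - (m + n))) * UU y) =
      (a + 2 * n) * (PP (m + n + w) - PP (m + n)) - 2 * (VV (m + n + w) - VV (m + n)) := by
    have e : ∀ y : ℝ, (a - 2 * m - 2 * (y - (m + n))) * UU y =
        (a + 2 * n) * UU y - 2 * (UU y * y) := by intro y; ring
    simp only [e]
    have hc : Continuous (fun y : ℝ => UU y * y) := UU_cont.mul continuous_id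
    rw [intervalIntegral.integral_sub
      ((UU_cont.intervalIntegrable _ _).const_mul _)
      ((hc.intervalIntegrable _ _).const_mul _),
      intervalIntegral.integral_const_mul, intervalIntegral.integral_const_mul, int_U, int_Uy]
  rw [h1]
  unfold II
  have e3 : m + w + n = m + n + w := by ring
  rw [e3]
  ring

/-- start value. -/
lemma BB_zero (a : ℝ) : BB a 0 0 = tt ^ 2 := by
  have h0 : (0 : ℝ) ≤ tt := tt_pos.le
  unfold BB II
  simp only [add_zero, sub_zero, mul_zero]
  rw [PP_le h0, VV_le h0]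
  rcases le_total a tt with h | h
  · rw [PP_le h, VV_le h, max_eq_right (by linarith : (0 : ℝ) ≤ tt - a)]; ring
  · rw [PP_ge h, VV_ge h, max_eq_left (by linarith : tt - a ≤ 0)]; ring

lemma BB_end (a n : ℝ) : 0 ≤ BB a a n := by
  unfold BB II
  have : (2 * tt - PP (a + n)) * (a - a) + (a + 2 * n) * (PP (a + n) - PP (a + n)) -
    2 * (VV (a + n) - VV (a + n)) = 0 := by ring
  rw [this]; positivity

/-- natural number version. -/
theorem slack_nat {k : ℝ} (hk0 : 0 ≤ k) (hk1 : k ≤ 2 - 2 * Real.log 2) (N : ℕ) (w : ℕ → ℝ)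
    (hw : ∀ i, 0 ≤ w i) (A : ℕ → Prop) [DecidablePred A] :
    (∑ i ∈ (Finset.range N).filter A,
      ((∫ y in (∑ j ∈ Finset.range i, w j)..((∑ j ∈ Finset.range i, w j) + w i),
        ((∑ j ∈ (Finset.range N).filter A, w j) - 2 * (∑ j ∈ (Finset.range i).filter A, w j) -
          2 * (y - (∑ j ∈ Finset.range i, w j))) * UU y) +
        w i * (2 * tt - PP ((∑ j ∈ Finset.range i, w j) +
          ((∑ j ∈ (Finset.range N).filter A, w j) -
            (∑ j ∈ (Finset.range i).filter A, w j)))))) +
    (∑ i ∈ (Finset.range N).filter (fun i => ¬ A i),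
      k * (∫ y in (∑ j ∈ Finset.range i, w j)..((∑ j ∈ Finset.range i, w j) + w i),
        max 0 (tt - y))) ≤ tt ^ 2 := by
  obtain ⟨a, ha⟩ : ∃ a, a = ∑ j ∈ (Finset.range N).filter A, w j := ⟨_, rfl⟩
  obtain ⟨T, hT⟩ : ∃ T : ℕ → ℝ, T = fun i => ∑ j ∈ Finset.range i, w j := ⟨_, rfl⟩
  obtain ⟨l, hl⟩ : ∃ l : ℕ → ℝ, l = fun i => ∑ j ∈ (Finset.range i).filter A, w j := ⟨_, rfl⟩
  have hTi : ∀ i, ∑ j ∈ Finset.range i, w j = T i := fun i => by rw [hT]
  have hli : ∀ i, ∑ j ∈ (Finset.range i).filter A, w j = l i := fun i => by rw [hl]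
  simp only [← ha, hTi, hli]
  have hTs : ∀ i, T (i + 1) = T i + w i := fun i => by
    rw [hT]; exact Finset.sum_range_succ _ _
  have hls : ∀ i, A i → l (i + 1) = l i + w i := fun i hi => by
    rw [hl]
    show ∑ j ∈ (Finset.range (i + 1)).filter A, w j = ∑ j ∈ (Finset.range i).filter A, w j + w i
    rw [Finset.range_add_one, Finset.filter_insert, if_pos hi, Finset.sum_insert (by simp)]
    ring
  have hls' : ∀ i, ¬ A i → l (i + 1) = l i := fun i hi => by
    rw [hl]
    show ∑ j ∈ (Finset.range (i + 1)).filter A, w j = ∑ j ∈ (Finset.range i).filter A, w j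
    rw [Finset.range_add_one, Finset.filter_insert, if_neg hi]
  have hl0 : ∀ i, 0 ≤ l i := fun i => by
    rw [hl]; exact Finset.sum_nonneg (fun j _ => hw j)
  have hlT : ∀ i, l i ≤ T i := fun i => by
    rw [hl, hT]
    exact Finset.sum_le_sum_of_subset_of_nonneg (Finset.filter_subset _ _) (fun j _ _ => hw j)
  have hla : ∀ i, i ≤ N → l i ≤ a := fun i hi => by
    rw [hl, ha]
    exact Finset.sum_le_sum_of_subset_of_nonneg
      (Finset.filter_subset_filter _ (Finset.range_mono hi)) (fun j _ _ => hw j)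
  have hlN : l N = a := by rw [hl, ha]
  -- the telescoping inequality
  have step : ∀ i, i < N →
      (if A i then ((∫ y in (T i)..(T i + w i), (a - 2 * l i - 2 * (y - T i)) * UU y) +
          w i * (2 * tt - PP (T i + (a - l i))))
        else k * (∫ y in (T i)..(T i + w i), max 0 (tt - y))) ≤
      (FF k a (l i) (T i - l i) - FF k a (l (i + 1)) (T (i + 1) - l (i + 1))) +
        k * (KK (T (i + 1)) - KK (T i)) := by
    intro i hi
    by_cases hA : A i
    · rw [if_pos hA, hls i hA, hTs i]
      have h := cell_int a (l i) (T i - l i) (w i)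
      have e1 : l i + (T i - l i) = T i := by ring
      have e2 : a + (T i - l i) = T i + (a - l i) := by ring
      rw [e1, e2] at h
      rw [h]
      unfold FF BB
      have e3 : T i + w i - (l i + w i) = T i - l i := by ring
      have e4 : l i + w i + (T i - l i) = T i + w i := by ring
      rw [e3, e4, e1]
      linarith
    · rw [if_neg hA, hls' i hA, hTs i, int_K]
      have h : FF k a (l i) (T i + w i - l i) ≤ FF k a (l i) (T i - l i) := by
        apply hole_step hk0 hk1 (hl0 i) (hla i hi.le)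
        · linarith [hlT i]
        · linarith [hw i]
      linarith
  have hsum := Finset.sum_le_sum (fun i hi => step i (Finset.mem_range.1 hi))
  rw [Finset.sum_ite] at hsum
  rw [← Finset.mul_sum] at hsum ⊢
  have htel : ∑ i ∈ Finset.range N,
      ((FF k a (l i) (T i - l i) - FF k a (l (i + 1)) (T (i + 1) - l (i + 1))) +
        k * (KK (T (i + 1)) - KK (T i))) =
      (FF k a (l 0) (T 0 - l 0) - FF k a (l N) (T N - l N)) + k * (KK (T N) - KK (T 0)) := by
    rw [Finset.sum_add_distrib, ← Finset.mul_sum, Finset.sum_range_sub (fun i => KK (T i)),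
      Finset.sum_range_sub' (fun i => FF k a (l i) (T i - l i))]
  rw [htel] at hsum
  have hT0 : T 0 = 0 := by rw [hT]; simp
  have hl00 : l 0 = 0 := by rw [hl]; simp
  rw [hT0, hl00, hlN] at hsum
  unfold FF at hsum
  have e5 : (0 : ℝ) - 0 = 0 := by ring
  rw [e5, BB_zero] at hsum
  have e6 : a + (T N - a) = T N := by ring
  rw [e6] at hsum
  have e7 : (0 : ℝ) + 0 = 0 := by ring
  rw [e7] at hsum
  have := BB_end a (T N - a)
  linarith

end

end Pool.Agent.Lib.MP_efec9b_co.SLK
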